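import Pool.Agent.Lib.MP_2eed13_lc.LCA.H62.Assemble

/-!
# Time `o((n / log n) ^ 2)` is strictly weaker than linear space on linear cellular arrays

One unary language is accepted by a two-way linear cellular array (without time bound), but by no
two-way and by no one-way array within `T n` steps, whenever `T n = o((n / log n) ^ 2)`.
-/

set_option autoImplicit false

namespace Pool.Agent.Results.MP_2eed13_lc.NearQuadraticTime

open Pool.Agent.Lib.MP_2eed13_lc.LCA

/-- One step of a two-way array with `n` nodes: the new state of node `i` is `δ` applied to the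
states of nodes `i - 1`, `i`, `i + 1`; `none` is the boundary symbol. -/
def step2 {Q : Type} (n : ℕ) (δ : Option Q → Q → Option Q → Q) (c : Fin n → Q) : Fin n → Q :=
  fun i =>
    δ (if (i : ℕ) = 0 then none else some (c ⟨(i : ℕ) - 1, lt_of_le_of_lt (Nat.sub_le _ _) i.isLt⟩))
      (c i) (if hi : (i : ℕ) + 1 < n then some (c ⟨(i : ℕ) + 1, hi⟩) else none)

/-- One step of a one-way array with `n` nodes: only the node itself and its left neighbour are
used. -/
def step1 {Q : Type} (n : ℕ) (δ : Option Q → Q → Q) (c : Fin n → Q) : Fin n → Q :=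
  fun i =>
    δ (if (i : ℕ) = 0 then none else some (c ⟨(i : ℕ) - 1, lt_of_le_of_lt (Nat.sub_le _ _) i.isLt⟩))
      (c i)

/-- The word `w` is accepted by the two-way array at time `t`: the leftmost node is in `F`. -/
def acc2 {S Q : Type} (ι : S → Q) (F : Set Q) (δ : Option Q → Q → Option Q → Q) (w : List S)
    (t : ℕ) : Prop :=
  ∃ h : 0 < w.length, (step2 w.length δ)^[t] (fun i => ι (w.get i)) ⟨0, h⟩ ∈ F

/-- The word `w` is accepted by the one-way array at time `t`: the rightmost node is in `F`. -/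
def acc1 {S Q : Type} (ι : S → Q) (F : Set Q) (δ : Option Q → Q → Q) (w : List S)
    (t : ℕ) : Prop :=
  ∃ h : 0 < w.length,
    (step1 w.length δ)^[t] (fun i => ι (w.get i)) ⟨w.length - 1, Nat.sub_lt h Nat.one_pos⟩ ∈ F

/-- `L` is the language of a two-way array (no time bound). -/
def IsLCA {S : Type} (L : Set (List S)) : Prop :=
  ∃ (Q : Type) (_ : Finite Q) (ι : S → Q) (F : Set Q) (δ : Option Q → Q → Option Q → Q),
    Function.Injective ι ∧ ∀ w : List S, w ∈ L ↔ ∃ t, acc2 ι F δ w t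

/-- `L` is the language of a two-way array that accepts every word `w` of `L` within
`T w.length` steps. -/
def IsLCATime {S : Type} (T : ℕ → ℕ) (L : Set (List S)) : Prop :=
  ∃ (Q : Type) (_ : Finite Q) (ι : S → Q) (F : Set Q) (δ : Option Q → Q → Option Q → Q),
    Function.Injective ι ∧ (∀ w : List S, w ∈ L ↔ ∃ t, acc2 ι F δ w t) ∧
      ∀ w ∈ L, ∃ t ≤ T w.length, acc2 ι F δ w t

/-- `L` is the language of a one-way array that accepts every word `w` of `L` within
`T w.length` steps. -/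
def IsOLCATime {S : Type} (T : ℕ → ℕ) (L : Set (List S)) : Prop :=
  ∃ (Q : Type) (_ : Finite Q) (ι : S → Q) (F : Set Q) (δ : Option Q → Q → Q),
    Function.Injective ι ∧ (∀ w : List S, w ∈ L ↔ ∃ t, acc1 ι F δ w t) ∧
      ∀ w ∈ L, ∃ t ≤ T w.length, acc1 ι F δ w t

/-- The unary language of the theorem. -/
def Lang : Set (List Unit) := {w | 0 < w.length ∧ H62.diagA (2 ^ w.length) ≠ 0}

theorem acc2_iff {Q : Type} (ι : Unit → Q) (F : Set Q) (δ : Option Q → Q → Option Q → Q)
    (w : List Unit) (t : ℕ) : acc2 ι F δ w t ↔ 0 < w.length ∧ aAcc δ (ι ()) F w.length t := by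
  unfold acc2
  constructor
  · rintro ⟨h, hh⟩
    exact ⟨h, ((H74.conv Q (ι ()) F w.length t h).1 δ).1 hh⟩
  · rintro ⟨h, hh⟩
    exact ⟨h, ((H74.conv Q (ι ()) F w.length t h).1 δ).2 hh⟩

theorem acc1_iff {Q : Type} (ι : Unit → Q) (F : Set Q) (δ : Option Q → Q → Q)
    (w : List Unit) (t : ℕ) :
    acc1 ι F δ w t ↔ 0 < w.length ∧ aAcc (fun _ q r => δ r q) (ι ()) F w.length t := by
  unfold acc1
  constructor
  · rintro ⟨h, hh⟩
    exact ⟨h, ((H74.conv Q (ι ()) F w.length t h).2 δ).1 hh⟩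
  · rintro ⟨h, hh⟩
    exact ⟨h, ((H74.conv Q (ι ()) F w.length t h).2 δ).2 hh⟩

theorem isLCA_lang : IsLCA Lang := by
  obtain ⟨Q, hQ, s, δ, F, h⟩ := H62.acceptable_all
  refine ⟨Q, hQ, fun _ => s, F, δ, fun a b _ => rfl, fun w => ?_⟩
  constructor
  · rintro ⟨hw, hd⟩
    obtain ⟨t, ht⟩ := (h w.length hw).1 hd
    exact ⟨t, (acc2_iff _ _ _ _ _).2 ⟨hw, ht⟩⟩
  · rintro ⟨t, ht⟩
    obtain ⟨hw, ht'⟩ := (acc2_iff _ _ _ _ _).1 ht
    exact ⟨hw, (h w.length hw).2 ⟨t, ht'⟩⟩

/-- The common part of the two lower bounds. -/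
theorem no_array (T : ℕ → ℕ)
    (hT : (fun n => (T n : ℝ)) =o[Filter.atTop] fun n : ℕ => ((n : ℝ) / Real.log n) ^ 2)
    (Q : Type) (hQ : Finite Q) (s : Q) (δ : Option Q → Q → Option Q → Q) (F : Set Q)
    (h1 : ∀ w : List Unit, w ∈ Lang ↔ ∃ t, 0 < w.length ∧ aAcc δ s F w.length t)
    (h2 : ∀ w ∈ Lang, ∃ t ≤ T w.length, 0 < w.length ∧ aAcc δ s F w.length t) : False := by
  obtain ⟨β, hβ, h⟩ := H62.diag_all Q hQ s δ F
  obtain ⟨N, hN⟩ := H62.bound_all β hβ T hT
  obtain ⟨n, hn, hne⟩ := h (N + 1)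
  apply hne
  have hw : (List.replicate n ()).length = n := List.length_replicate
  have hn0 : 0 < (List.replicate n ()).length := by rw [hw]; omega
  constructor
  · intro hd
    have hL : List.replicate n () ∈ Lang := ⟨hn0, by rw [hw]; exact hd⟩
    obtain ⟨t, ht, _, ha⟩ := h2 _ hL
    rw [hw] at ht ha
    exact ⟨t, ht.trans (hN n (by omega)), ha⟩
  · rintro ⟨t, _, ha⟩
    have hL : List.replicate n () ∈ Lang := (h1 _).2 ⟨t, hn0, by rw [hw]; exact ha⟩
    have := hL.2
    rwa [hw] at this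

/-- There is a unary language `L` accepted by a two-way linear cellular array which, for every
`T` with `T n = o((n / log n) ^ 2)`, is accepted by no two-way and by no one-way linear cellular
array within `T n` steps. -/
theorem result : ∃ L : Set (List Unit), IsLCA L ∧ ∀ T : ℕ → ℕ,
    (fun n => (T n : ℝ)) =o[Filter.atTop] (fun n : ℕ => ((n : ℝ) / Real.log n) ^ 2) →
      ¬ IsLCATime T L ∧ ¬ IsOLCATime T L := by
  refine ⟨Lang, isLCA_lang, fun T hT => ⟨?_, ?_⟩⟩
  · rintro ⟨Q, hQ, ι, F, δ, _, h1, h2⟩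
    refine no_array T hT Q hQ (ι ()) δ F (fun w => ?_) (fun w hw => ?_)
    · rw [h1 w]
      exact exists_congr fun t => acc2_iff _ _ _ _ _
    · obtain ⟨t, ht, ha⟩ := h2 w hw
      exact ⟨t, ht, (acc2_iff _ _ _ _ _).1 ha⟩
  · rintro ⟨Q, hQ, ι, F, δ, _, h1, h2⟩
    refine no_array T hT Q hQ (ι ()) (fun _ q r => δ r q) F (fun w => ?_) (fun w hw => ?_)
    · rw [h1 w]
      exact exists_congr fun t => acc1_iff _ _ _ _ _
    · obtain ⟨t, ht, ha⟩ := h2 w hw
      exact ⟨t, ht, (acc1_iff _ _ _ _ _).1 ha⟩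

end Pool.Agent.Results.MP_2eed13_lc.NearQuadraticTime
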